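import Pool.Agent.TH179.SD.Lin

/-!
# SD-G6, part A: the coordinate changes and the `w` coordinates
-/

set_option autoImplicit false

open scoped ContDiff Topology
open Set

noncomputable section

namespace Pool.Agent.TH50.SDG6
open Pool.Agent.TH179.SD

lemma V_ext {v w : V} (h0 : v 0 = w 0) (h1 : v 1 = w 1) (h2 : v 2 = w 2) (h3 : v 3 = w 3) :
    v = w := by
  funext i
  fin_cases i
  · exact h0
  · exact h1
  · exact h2
  · exact h3

lemma na_invA (w : V) : na (invA w) = (na w)⁻¹ := by
  by_cases h : na w = 0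
  · simp only [na, invA, Matrix.cons_val_zero, Matrix.cons_val_one]
    simp only [na] at h
    rw [h]
    simp
  · have h' : na w ≠ 0 := h
    have e : na (invA w) = na w / na w ^ 2 := by
      conv_lhs => simp only [na, invA, Matrix.cons_val_zero, Matrix.cons_val_one]
      have : na w = (w 0).re ^ 2 + (w 0).im ^ 2 + (w 1).re ^ 2 := rfl
      rw [← this]
      field_simp
      rw [this]
    rw [e]
    field_simp

lemma nb_invA (w : V) : nb (invA w) = nb w := by
  simp [nb, invA]

lemma na_invB (w : V) : na (invB w) = na w := by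
  simp [na, invB]

lemma nb_invB (w : V) : nb (invB w) = (nb w)⁻¹ := by
  by_cases h : nb w = 0
  · have : nb (invB w) = nb w * (nb w)⁻¹ ^ 2 := by
      conv_lhs => simp only [nb, invB]
      have e : nb w = (w 1).im ^ 2 + (w 2).re ^ 2 + (w 2).im ^ 2 + (w 3).re ^ 2 + (w 3).im ^ 2 := rfl
      simp only [Matrix.cons_val_one, Matrix.cons_val]
      rw [← e, h]
      simp
    rw [this, h]
    simp
  · have h' : nb w ≠ 0 := h
    have e : nb (invB w) = nb w / nb w ^ 2 := by
      conv_lhs => simp only [nb, invB, Matrix.cons_val_one, Matrix.cons_val]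
      have : nb w = (w 1).im ^ 2 + (w 2).re ^ 2 + (w 2).im ^ 2 + (w 3).re ^ 2 + (w 3).im ^ 2 := rfl
      rw [← this]
      field_simp
      rw [this]
    rw [e]
    field_simp

lemma invA_invA {w : V} (h : na w ≠ 0) : invA (invA w) = w := by
  have e : na (invA w) = (na w)⁻¹ := na_invA w
  have h2 : invA (invA w) = ![⟨-(invA w 0).re / (na w)⁻¹, (invA w 0).im / (na w)⁻¹⟩,
      ⟨(invA w 1).re / (na w)⁻¹, (invA w 1).im⟩, invA w 2, invA w 3] := by
    conv_lhs => rw [invA]
    rw [e]
  rw [h2]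
  apply V_ext
  · apply Complex.ext <;> simp [invA] <;> field_simp
  · apply Complex.ext <;> simp [invA] ; field_simp
  · simp [invA]
  · simp [invA]

lemma invB_invB {w : V} (h : nb w ≠ 0) : invB (invB w) = w := by
  have e : nb (invB w) = (nb w)⁻¹ := nb_invB w
  have h2 : invB (invB w) = ![invB w 0, ⟨(invB w 1).re, (invB w 1).im / (nb w)⁻¹⟩,
      ⟨-(invB w 2).re / (nb w)⁻¹, (invB w 2).im / (nb w)⁻¹⟩,
      ⟨(invB w 3).re / (nb w)⁻¹, (invB w 3).im / (nb w)⁻¹⟩] := by
    conv_lhs => rw [invB]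
    rw [e]
  rw [h2]
  apply V_ext
  · simp [invB]
  · apply Complex.ext <;> simp [invB] ; field_simp
  · apply Complex.ext <;> simp [invB] <;> field_simp
  · apply Complex.ext <;> simp [invB] <;> field_simp

lemma invA_invB (w : V) : invA (invB w) = invB (invA w) := by
  have e1 : invA (invB w) = ![⟨-(invB w 0).re / na w, (invB w 0).im / na w⟩,
      ⟨(invB w 1).re / na w, (invB w 1).im⟩, invB w 2, invB w 3] := by
    conv_lhs => rw [invA]
    rw [na_invB]
  have e2 : invB (invA w) = ![invA w 0, ⟨(invA w 1).re, (invA w 1).im / nb w⟩,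
      ⟨-(invA w 2).re / nb w, (invA w 2).im / nb w⟩,
      ⟨(invA w 3).re / nb w, (invA w 3).im / nb w⟩] := by
    conv_lhs => rw [invB]
    rw [nb_invA]
  rw [e1, e2]
  apply V_ext
  · apply Complex.ext <;> simp [invA, invB]
  · apply Complex.ext <;> simp [invA, invB]
  · apply Complex.ext <;> simp [invA, invB]
  · apply Complex.ext <;> simp [invA, invB]

lemma bd_bu {j : Fin 4} {w : V} (h : w j ≠ 0) : bd j (bu j w) = w := by
  funext i
  by_cases hi : i = j
  · subst hi; simp [bd, bu]
  · simp [bd, bu, hi]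
    field_simp

lemma bu_apply_self (j : Fin 4) (w : V) : bu j w j = w j := by simp [bu]

lemma bd_apply_self (j : Fin 4) (w : V) : bd j w j = w j := by simp [bd]

/-- the inclusion of `w ≠ 0` in each chart is inverse to `toW` -/
lemma fromW_spec (d : Idx) {w : V} (h : w ∈ rngW d) :
    fromW d w ∈ domW d ∧ toW d (fromW d w) = w := by
  rcases d with k | d
  · refine ⟨?_, bd_bu h⟩
    show bu k w k ≠ 0
    rw [bu_apply_self]
    exact h
  · fin_cases d
    · refine ⟨?_, invA_invA h⟩
      show na (invA w) ≠ 0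
      rw [na_invA]
      exact inv_ne_zero h
    · refine ⟨?_, invB_invB h⟩
      show nb (invB w) ≠ 0
      rw [nb_invB]
      exact inv_ne_zero h
    · have h1 : na w ≠ 0 := h.1
      have h2 : nb w ≠ 0 := h.2
      refine ⟨⟨?_, ?_⟩, ?_⟩
      · show na (invA (invB w)) ≠ 0
        rw [na_invA, na_invB]
        exact inv_ne_zero h1
      · show nb (invA (invB w)) ≠ 0
        rw [nb_invA, nb_invB]
        exact inv_ne_zero h2
      · show invA (invB (invA (invB w))) = w
        rw [invA_invB w, invB_invB (by rwa [nb_invA]), invA_invA h1]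

lemma O01 : O (Sum.inr 0) (Sum.inr 1) = {q | na q ≠ 0 ∧ nb q ≠ 0} := by simp [O]
lemma O02 : O (Sum.inr 0) (Sum.inr 2) = {q | nb q ≠ 0} := by simp [O]
lemma O10 : O (Sum.inr 1) (Sum.inr 0) = {q | na q ≠ 0 ∧ nb q ≠ 0} := by simp [O]
lemma O12 : O (Sum.inr 1) (Sum.inr 2) = {q | na q ≠ 0} := by simp [O]
lemma O20 : O (Sum.inr 2) (Sum.inr 0) = {q | nb q ≠ 0} := by simp [O]
lemma O21 : O (Sum.inr 2) (Sum.inr 1) = {q | na q ≠ 0} := by simp [O]
lemma tr01 : tr (Sum.inr 0) (Sum.inr 1) = fun q => invA (invB q) := by simp [tr]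
lemma tr02 : tr (Sum.inr 0) (Sum.inr 2) = invB := by simp [tr]
lemma tr10 : tr (Sum.inr 1) (Sum.inr 0) = fun q => invA (invB q) := by simp [tr]
lemma tr12 : tr (Sum.inr 1) (Sum.inr 2) = invA := by simp [tr]
lemma tr20 : tr (Sum.inr 2) (Sum.inr 0) = invB := by simp [tr]
lemma tr21 : tr (Sum.inr 2) (Sum.inr 1) = invA := by simp [tr]
lemma trcc (c : Idx) : tr c c = id := by
  rcases c with j | c
  · simp [tr]
  · simp [tr]

lemma tr_spec_inr (c d : Fin 3) {q : V} (hq : q ∈ O (Sum.inr c) (Sum.inr d)) :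
    (q ∈ domW (Sum.inr c) ↔ tr (Sum.inr c) (Sum.inr d) q ∈ domW (Sum.inr d)) ∧
      (q ∈ domW (Sum.inr c) → toW (Sum.inr d) (tr (Sum.inr c) (Sum.inr d) q) =
        toW (Sum.inr c) q) := by
  by_cases hcd : c = d
  · subst hcd
    rw [trcc]
    exact ⟨Iff.rfl, fun _ => rfl⟩
  have h3 : ∀ c : Fin 3, c = 0 ∨ c = 1 ∨ c = 2 := by decide
  rcases h3 c with rfl | rfl | rfl <;> rcases h3 d with rfl | rfl | rfl
  · exact absurd rfl hcd
  · rw [O01] at hq
    rw [tr01]
    refine ⟨⟨fun _ => ?_, fun _ => hq.1⟩, fun _ => ?_⟩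
    · show nb (invA (invB q)) ≠ 0
      rw [nb_invA, nb_invB]
      exact inv_ne_zero hq.2
    · show invB (invA (invB q)) = invA q
      rw [← invA_invB, invB_invB hq.2]
  · rw [O02] at hq
    rw [tr02]
    refine ⟨?_, fun _ => ?_⟩
    · show na q ≠ 0 ↔ na (invB q) ≠ 0 ∧ nb (invB q) ≠ 0
      rw [na_invB, nb_invB]
      exact ⟨fun h => ⟨h, inv_ne_zero hq⟩, fun h => h.1⟩
    · show invA (invB (invB q)) = invA q
      rw [invB_invB hq]
  · rw [O10] at hq
    rw [tr10]
    refine ⟨⟨fun _ => ?_, fun _ => hq.2⟩, fun _ => ?_⟩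
    · show na (invA (invB q)) ≠ 0
      rw [na_invA, na_invB]
      exact inv_ne_zero hq.1
    · show invA (invA (invB q)) = invB q
      rw [invA_invA (by rw [na_invB]; exact hq.1)]
  · exact absurd rfl hcd
  · rw [O12] at hq
    rw [tr12]
    refine ⟨?_, fun _ => ?_⟩
    · show nb q ≠ 0 ↔ na (invA q) ≠ 0 ∧ nb (invA q) ≠ 0
      rw [na_invA, nb_invA]
      exact ⟨fun h => ⟨inv_ne_zero hq, h⟩, fun h => h.2⟩
    · show invA (invB (invA q)) = invB q
      rw [← invA_invB, invA_invA (by rw [na_invB]; exact hq)]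
  · rw [O20] at hq
    rw [tr20]
    refine ⟨?_, fun _ => rfl⟩
    show na q ≠ 0 ∧ nb q ≠ 0 ↔ na (invB q) ≠ 0
    rw [na_invB]
    exact ⟨fun h => h.1, fun h => ⟨h, hq⟩⟩
  · rw [O21] at hq
    rw [tr21]
    refine ⟨?_, fun _ => ?_⟩
    · show na q ≠ 0 ∧ nb q ≠ 0 ↔ nb (invA q) ≠ 0
      rw [nb_invA]
      exact ⟨fun h => h.2, fun h => ⟨hq, h⟩⟩
    · show invB (invA q) = invA (invB q)
      rw [invA_invB]
  · exact absurd rfl hcd

/-- transitions preserve the `w` coordinate -/
lemma tr_spec (c d : Idx) {q : V} (hq : q ∈ O c d) (hc : q ∈ domW c) :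
    tr c d q ∈ domW d ∧ toW d (tr c d q) = toW c q := by
  rcases c with j | c
  · rcases d with k | d
    · by_cases hjk : j = k
      · subst hjk
        simp only [tr, if_true, id]
        exact ⟨hc, trivial⟩
      · have hk : q k ≠ 0 := by
          simp only [O, if_neg hjk] at hq
          exact hq
        have hj : q j ≠ 0 := hc
        simp only [tr, if_neg hjk]
        refine ⟨?_, ?_⟩
        · show (if k = k then q j * q k else _) ≠ 0
          rw [if_pos rfl]
          exact mul_ne_zero hj hk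
        · funext i
          simp only [toW, bd]
          by_cases hi : i = k
          · subst hi
            simp [Ne.symm hjk]
          · by_cases hij : i = j
            · subst hij
              simp [hi]
              field_simp
            · simp [hi, hij]
              field_simp
    · exact fromW_spec _ hq.2
  · rcases d with k | d
    · exact fromW_spec _ hq.2
    · have key : (q ∈ domW (Sum.inr c) ↔ tr (Sum.inr c) (Sum.inr d) q ∈ domW (Sum.inr d)) ∧
          (q ∈ domW (Sum.inr c) → toW (Sum.inr d) (tr (Sum.inr c) (Sum.inr d) q) =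
            toW (Sum.inr c) q) := by
        exact tr_spec_inr c d hq
      exact ⟨key.1.1 hc, key.2 hc⟩

end Pool.Agent.TH50.SDG6
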