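import Pool.Agent.TH50.SDG6.A

/-!
# SD-G6, part B: smoothness of the coordinate maps
-/

set_option autoImplicit false

open scoped ContDiff Topology
open Set

noncomputable section

namespace Pool.Agent.TH50.SDG6
open Pool.Agent.TH179.SD

/-- real part of a coordinate -/
def cre (i : Fin 4) : V →L[ℝ] ℝ := Complex.reCLM.comp (ContinuousLinearMap.proj (R := ℝ) (φ := fun _ : Fin 4 => ℂ) i)

/-- imaginary part of a coordinate -/
def cim (i : Fin 4) : V →L[ℝ] ℝ := Complex.imCLM.comp (ContinuousLinearMap.proj (R := ℝ) (φ := fun _ : Fin 4 => ℂ) i)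

@[simp] lemma cre_apply (i : Fin 4) (w : V) : cre i w = (w i).re := rfl
@[simp] lemma cim_apply (i : Fin 4) (w : V) : cim i w = (w i).im := rfl

lemma contDiff_re (i : Fin 4) : ContDiff ℝ ∞ (fun w : V => (w i).re) := (cre i).contDiff
lemma contDiff_im (i : Fin 4) : ContDiff ℝ ∞ (fun w : V => (w i).im) := (cim i).contDiff

lemma contDiff_coord (i : Fin 4) : ContDiff ℝ ∞ (fun w : V => w i) :=
  (ContinuousLinearMap.proj (R := ℝ) (φ := fun _ : Fin 4 => ℂ) i).contDiff

lemma contDiff_na : ContDiff ℝ ∞ na :=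
  (((contDiff_re 0).pow 2).add ((contDiff_im 0).pow 2)).add ((contDiff_re 1).pow 2)

lemma contDiff_nb : ContDiff ℝ ∞ nb :=
  (((((contDiff_im 1).pow 2).add ((contDiff_re 2).pow 2)).add ((contDiff_im 2).pow 2)).add
    ((contDiff_re 3).pow 2)).add ((contDiff_im 3).pow 2)

/-- `|w|²` -/
def rr (w : V) : ℝ := na w + nb w

lemma contDiff_rr : ContDiff ℝ ∞ rr := contDiff_na.add contDiff_nb

lemma na_nonneg (w : V) : 0 ≤ na w := by unfold na; positivity
lemma nb_nonneg (w : V) : 0 ≤ nb w := by unfold nb; positivity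
lemma rr_nonneg (w : V) : 0 ≤ rr w := add_nonneg (na_nonneg w) (nb_nonneg w)

lemma rr_eq_sum (w : V) : rr w = ∑ i, ((w i).re ^ 2 + (w i).im ^ 2) := by
  simp only [rr, na, nb, Fin.sum_univ_four]
  ring

lemma rr_eq_sum_normSq (w : V) : rr w = ∑ i, Complex.normSq (w i) := by
  rw [rr_eq_sum]
  refine Finset.sum_congr rfl fun i _ => ?_
  rw [Complex.normSq_apply]
  ring

lemma rr_ne_zero {w : V} (hw : w ≠ 0) : rr w ≠ 0 := by
  intro h
  apply hw
  rw [rr_eq_sum_normSq] at h
  rw [Finset.sum_eq_zero_iff_of_nonneg (fun i _ => Complex.normSq_nonneg _)] at h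
  funext i
  exact Complex.normSq_eq_zero.1 (h i (Finset.mem_univ _))

lemma rr_pos {w : V} (hw : w ≠ 0) : 0 < rr w := lt_of_le_of_ne (rr_nonneg w) (Ne.symm (rr_ne_zero hw))

lemma contDiffAt_mk {f g : V → ℝ} {x : V} (hf : ContDiffAt ℝ ∞ f x) (hg : ContDiffAt ℝ ∞ g x) :
    ContDiffAt ℝ ∞ (fun w => (⟨f w, g w⟩ : ℂ)) x := by
  have h1 : ContDiffAt ℝ ∞ (fun w => ((f w : ℝ) : ℂ)) x :=
    (Complex.ofRealCLM.contDiff.contDiffAt).comp x hf
  have h2 : ContDiffAt ℝ ∞ (fun w => ((g w : ℝ) : ℂ)) x :=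
    (Complex.ofRealCLM.contDiff.contDiffAt).comp x hg
  have h3 := h1.add (h2.mul (contDiffAt_const (c := Complex.I)))
  refine h3.congr_of_eventuallyEq (Filter.Eventually.of_forall fun w => ?_)
  exact (Complex.mk_eq_add_mul_I _ _)

lemma contDiffAt_invA {w : V} (h : na w ≠ 0) : ContDiffAt ℝ ∞ invA w := by
  have hn : ContDiffAt ℝ ∞ na w := contDiff_na.contDiffAt
  rw [contDiffAt_pi]
  intro i
  fin_cases i
  · exact contDiffAt_mk (((contDiff_re 0).contDiffAt.neg).div hn h)
      (((contDiff_im 0).contDiffAt).div hn h)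
  · exact contDiffAt_mk (((contDiff_re 1).contDiffAt).div hn h) ((contDiff_im 1).contDiffAt)
  · exact (contDiff_coord 2).contDiffAt
  · exact (contDiff_coord 3).contDiffAt

lemma contDiffAt_invB {w : V} (h : nb w ≠ 0) : ContDiffAt ℝ ∞ invB w := by
  have hn : ContDiffAt ℝ ∞ nb w := contDiff_nb.contDiffAt
  rw [contDiffAt_pi]
  intro i
  fin_cases i
  · exact (contDiff_coord 0).contDiffAt
  · exact contDiffAt_mk ((contDiff_re 1).contDiffAt) (((contDiff_im 1).contDiffAt).div hn h)
  · exact contDiffAt_mk (((contDiff_re 2).contDiffAt.neg).div hn h)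
      (((contDiff_im 2).contDiffAt).div hn h)
  · exact contDiffAt_mk (((contDiff_re 3).contDiffAt).div hn h)
      (((contDiff_im 3).contDiffAt).div hn h)

lemma contDiff_bd (j : Fin 4) : ContDiff ℝ ∞ (bd j) := by
  rw [contDiff_pi]
  intro i
  by_cases hi : i = j
  · simp only [bd, hi, if_true]
    exact contDiff_coord j
  · simp only [bd, hi, if_false]
    exact (contDiff_coord j).mul (contDiff_coord i)

lemma isOpen_domW (c : Idx) : IsOpen (domW c) := by
  rcases c with j | c
  · exact isOpen_ne_fun (continuous_apply j) continuous_const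
  · have h3 : ∀ c : Fin 3, c = 0 ∨ c = 1 ∨ c = 2 := by decide
    have ha : IsOpen {q : V | na q ≠ 0} := isOpen_ne_fun contDiff_na.continuous continuous_const
    have hb : IsOpen {q : V | nb q ≠ 0} := isOpen_ne_fun contDiff_nb.continuous continuous_const
    rcases h3 c with rfl | rfl | rfl
    · exact ha
    · exact hb
    · exact ha.inter hb

lemma contDiffAt_toW (c : Idx) {q : V} (hq : q ∈ domW c) : ContDiffAt ℝ ∞ (toW c) q := by
  rcases c with j | c
  · exact (contDiff_bd j).contDiffAt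
  · have h3 : ∀ c : Fin 3, c = 0 ∨ c = 1 ∨ c = 2 := by decide
    rcases h3 c with rfl | rfl | rfl
    · exact contDiffAt_invA hq
    · exact contDiffAt_invB hq
    · have h1 : ContDiffAt ℝ ∞ invB q := contDiffAt_invB hq.2
      have h2 : ContDiffAt ℝ ∞ invA (invB q) := contDiffAt_invA (by rw [na_invB]; exact hq.1)
      exact h2.comp q h1

lemma rr_bd (j : Fin 4) (v : V) :
    rr (bd j v) = Complex.normSq (v j) * (1 + ∑ i, if i = j then 0 else Complex.normSq (v i)) := by
  rw [rr_eq_sum_normSq, mul_add, mul_one, Finset.mul_sum]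
  have h1 : Complex.normSq (v j) = ∑ i, if i = j then Complex.normSq (v j) else 0 := by simp
  conv_rhs => rw [h1, ← Finset.sum_add_distrib]
  refine Finset.sum_congr rfl fun i _ => ?_
  by_cases hij : i = j
  · simp [bd, hij]
  · simp [bd, hij, Complex.normSq_mul]

lemma toW_ne_zero (c : Idx) {q : V} (hq : q ∈ domW c) : toW c q ≠ 0 := by
  intro h
  have h0 : rr (toW c q) = 0 := by rw [h]; simp [rr, na, nb]
  have hna : na (toW c q) = 0 := by
    have := na_nonneg (toW c q); have := nb_nonneg (toW c q); unfold rr at h0; linarith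
  have hnb : nb (toW c q) = 0 := by
    have := na_nonneg (toW c q); have := nb_nonneg (toW c q); unfold rr at h0; linarith
  rcases c with j | c
  · apply hq
    have := congrFun h j
    simpa [toW, bd] using this
  · have h3 : ∀ c : Fin 3, c = 0 ∨ c = 1 ∨ c = 2 := by decide
    rcases h3 c with rfl | rfl | rfl
    · have e : na (invA q) = 0 := hna
      rw [na_invA] at e
      exact hq (inv_eq_zero.1 e)
    · have e : nb (invB q) = 0 := hnb
      rw [nb_invB] at e
      exact hq (inv_eq_zero.1 e)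
    · have e : na (invA (invB q)) = 0 := hna
      rw [na_invA, na_invB] at e
      exact hq.1 (inv_eq_zero.1 e)

/-- far away from the divisor -/
lemma far (c : Fin 3) {q : V} (hq : q ∉ domW (Sum.inr c)) :
    ∀ᶠ p in 𝓝 q, p ∈ domW (Sum.inr c) → 1 / 2 ≤ rr (toW (Sum.inr c) p) := by
  have key : ∀ (f : V → ℝ), Continuous f → f q = 0 → ∀ᶠ p in 𝓝 q, f p < 2 := by
    intro f hf h0
    exact hf.continuousAt.eventually_lt continuousAt_const (by rw [h0]; norm_num)
  have inv : ∀ x : ℝ, 0 < x → x < 2 → 1 / 2 ≤ x⁻¹ := by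
    intro x h1 h2
    rw [one_div]
    exact inv_anti₀ h1 h2.le
  have h3 : ∀ c : Fin 3, c = 0 ∨ c = 1 ∨ c = 2 := by decide
  rcases h3 c with rfl | rfl | rfl
  · have hq' : na q = 0 := not_not.1 hq
    filter_upwards [key na contDiff_na.continuous hq'] with p hp hd
    have hd' : na p ≠ 0 := hd
    show 1 / 2 ≤ na (invA p) + nb (invA p)
    rw [na_invA]
    have := inv (na p) (lt_of_le_of_ne (na_nonneg p) (Ne.symm hd')) hp
    linarith [nb_nonneg (invA p)]
  · have hq' : nb q = 0 := not_not.1 hq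
    filter_upwards [key nb contDiff_nb.continuous hq'] with p hp hd
    have hd' : nb p ≠ 0 := hd
    show 1 / 2 ≤ na (invB p) + nb (invB p)
    rw [nb_invB]
    have := inv (nb p) (lt_of_le_of_ne (nb_nonneg p) (Ne.symm hd')) hp
    linarith [na_nonneg (invB p)]
  · by_cases h0 : na q = 0
    · filter_upwards [key na contDiff_na.continuous h0] with p hp hd
      have hd' : na p ≠ 0 := hd.1
      show 1 / 2 ≤ na (invA (invB p)) + nb (invA (invB p))
      rw [na_invA, na_invB]
      have := inv (na p) (lt_of_le_of_ne (na_nonneg p) (Ne.symm hd')) hp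
      linarith [nb_nonneg (invA (invB p))]
    · have h1 : nb q = 0 := by
        by_contra h1
        exact hq ⟨h0, h1⟩
      filter_upwards [key nb contDiff_nb.continuous h1] with p hp hd
      have hd' : nb p ≠ 0 := hd.2
      show 1 / 2 ≤ na (invA (invB p)) + nb (invA (invB p))
      rw [nb_invA, nb_invB]
      have := inv (nb p) (lt_of_le_of_ne (nb_nonneg p) (Ne.symm hd')) hp
      linarith [na_nonneg (invA (invB p))]

end Pool.Agent.TH50.SDG6
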