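import Pool.Agent.TH50.SDG6.B

/-!
# SD-G6, part C: the one-form `lam` on `w ≠ 0`
-/

set_option autoImplicit false

open scoped ContDiff Topology
open Set

noncomputable section

namespace Pool.Agent.TH50.SDG6
open Pool.Agent.TH179.SD

/-- `Im ∑ conj(w_i) u_i` -/
def BB : V →L[ℝ] V →L[ℝ] ℝ := ∑ i, ((cre i).smulRight (cim i) - (cim i).smulRight (cre i))

/-- `Re ∑ conj(w_i) u_i` -/
def RR : V →L[ℝ] V →L[ℝ] ℝ := ∑ i, ((cre i).smulRight (cre i) + (cim i).smulRight (cim i))

lemma BB_apply (w u : V) : BB w u = ∑ i, ((w i).re * (u i).im - (w i).im * (u i).re) := by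
  simp [BB]

lemma RR_apply (w u : V) : RR w u = ∑ i, ((w i).re * (u i).re + (w i).im * (u i).im) := by
  simp [RR]

lemma BB_symm (w u : V) : BB u w = - BB w u := by
  rw [BB_apply, BB_apply, ← Finset.sum_neg_distrib]
  refine Finset.sum_congr rfl fun i _ => ?_
  ring

lemma RR_symm (w u : V) : RR u w = RR w u := by
  rw [RR_apply, RR_apply]
  refine Finset.sum_congr rfl fun i _ => ?_
  ring

/-- the cut-off function -/
def chi (s : ℝ) : ℝ := Real.smoothTransition (2 - 4 * s)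

lemma contDiff_chi : ContDiff ℝ ∞ chi :=
  Real.smoothTransition.contDiff.comp (contDiff_const.sub (contDiff_const.mul contDiff_id))

lemma chi_one {s : ℝ} (h : s ≤ 1 / 4) : chi s = 1 :=
  Real.smoothTransition.one_of_one_le (by linarith)

lemma chi_zero {s : ℝ} (h : 1 / 2 ≤ s) : chi s = 0 :=
  Real.smoothTransition.zero_of_nonpos (by linarith)

lemma chi_nonneg (s : ℝ) : 0 ≤ chi s := Real.smoothTransition.nonneg _

lemma chi_antitone : Antitone chi := fun _ _ h =>
  Real.smoothTransition.monotone (by linarith)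

lemma deriv_chi_nonpos (s : ℝ) : deriv chi s ≤ 0 := by
  have h : HasDerivAt chi (deriv chi s) s :=
    (contDiff_chi.differentiable (by simp)).differentiableAt.hasDerivAt
  exact chi_antitone.deriv_nonpos

lemma exists_chi : ∃ s : ℝ, 0 < s ∧ 0 < chi s ∧ deriv chi s < 0 := by
  have hc : Continuous chi := contDiff_chi.continuous
  have hd : Differentiable ℝ chi := contDiff_chi.differentiable (by simp)
  obtain ⟨c, hc1, hc2⟩ := exists_deriv_eq_slope chi (a := 1 / 8) (b := 3 / 8) (by norm_num)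
    hc.continuousOn hd.differentiableOn
  have h1 : chi (1 / 8) = 1 := chi_one (by norm_num)
  have h2 : chi (3 / 8) < 1 := Real.smoothTransition.lt_one_of_lt_one (by norm_num)
  have h3 : 0 < chi (3 / 8) := Real.smoothTransition.pos_of_pos (by norm_num)
  refine ⟨c, by linarith [hc1.1], lt_of_lt_of_le h3 (chi_antitone hc1.2.le), ?_⟩
  rw [hc2, h1]
  apply div_neg_of_neg_of_pos <;> linarith

/-- `chi s / s` -/
def ff (s : ℝ) : ℝ := chi s / s

lemma contDiffAt_ff {s : ℝ} (h : s ≠ 0) : ContDiffAt ℝ ∞ ff s :=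
  contDiff_chi.contDiffAt.div contDiffAt_id h

lemma deriv_ff {s : ℝ} (h : s ≠ 0) : deriv ff s * s + ff s = deriv chi s := by
  have h1 : HasDerivAt chi (deriv chi s) s :=
    (contDiff_chi.differentiable (by simp)).differentiableAt.hasDerivAt
  have h2 : HasDerivAt ff ((deriv chi s * s - chi s * 1) / s ^ 2) s := h1.div (hasDerivAt_id s) h
  rw [h2.deriv, ff]
  field_simp
  ring

/-- the one-form on `w ≠ 0` (as a covector field) -/
def lam (w : V) : V →L[ℝ] ℝ := ff (rr w) • BB w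

lemma contDiffAt_lam {w : V} (hw : w ≠ 0) : ContDiffAt ℝ ∞ lam w := by
  have h1 : ContDiffAt ℝ ∞ (fun w => ff (rr w)) w :=
    (contDiffAt_ff (rr_ne_zero hw)).comp w contDiff_rr.contDiffAt
  exact h1.smul BB.contDiff.contDiffAt

lemma lam_zero {w : V} (h : 1 / 2 ≤ rr w) : lam w = 0 := by
  simp [lam, ff, chi_zero h]

lemma hasFDerivAt_rr (w : V) : HasFDerivAt rr ((2 : ℝ) • RR w) w := by
  have h : ∀ i : Fin 4, HasFDerivAt (fun w : V => (w i).re ^ 2 + (w i).im ^ 2)
      ((2 : ℝ) • ((w i).re • cre i + (w i).im • cim i)) w := by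
    intro i
    have h1 : HasFDerivAt (fun w : V => (w i).re) (cre i) w := (cre i).hasFDerivAt
    have h2 : HasFDerivAt (fun w : V => (w i).im) (cim i) w := (cim i).hasFDerivAt
    have h3 := (h1.pow 2).add (h2.pow 2)
    refine h3.congr_fderiv ?_
    ext u
    simp
    ring
  have h' : HasFDerivAt (fun w : V => ∑ i, ((w i).re ^ 2 + (w i).im ^ 2))
      (∑ i, (2 : ℝ) • ((w i).re • cre i + (w i).im • cim i)) w :=
    HasFDerivAt.fun_sum fun i _ => h i
  have e : rr = fun w : V => ∑ i, ((w i).re ^ 2 + (w i).im ^ 2) := funext rr_eq_sum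
  rw [e]
  refine h'.congr_fderiv ?_
  ext u
  rw [_root_.smul_apply, RR_apply, _root_.sum_apply, smul_eq_mul,
    Finset.mul_sum]
  refine Finset.sum_congr rfl fun i _ => ?_
  simp
  ring

lemma hasFDerivAt_lam {w : V} (hw : w ≠ 0) :
    HasFDerivAt lam (ff (rr w) • BB + (deriv ff (rr w) • (2 : ℝ) • RR w).smulRight (BB w)) w := by
  have h1 : HasDerivAt ff (deriv ff (rr w)) (rr w) :=
    ((contDiffAt_ff (rr_ne_zero hw)).differentiableAt (by simp)).hasDerivAt
  have h2 : HasFDerivAt (fun w => ff (rr w)) (deriv ff (rr w) • (2 : ℝ) • RR w) w :=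
    h1.comp_hasFDerivAt w (hasFDerivAt_rr w)
  have h3 : HasFDerivAt (fun w => BB w) BB w := BB.hasFDerivAt
  exact h2.smul h3

/-! ### one-forms -/

lemma one_apply (g : V →L[ℝ] ℝ) (v : Fin 1 → V) : one g v = g (v 0) := rfl

/-- `one` as a continuous linear map -/
def oneL : (V →L[ℝ] ℝ) →L[ℝ] Alt 1 :=
  ((ContinuousAlternatingMap.ofSubsingletonLIE (𝕜 := ℝ) (E := V) (F := ℝ)
    (0 : Fin 1)).toContinuousLinearEquiv : (V →L[ℝ] ℝ) →L[ℝ] Alt 1)

lemma oneL_apply (g : V →L[ℝ] ℝ) : oneL g = one g := rfl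

lemma one_comp (g : V →L[ℝ] ℝ) (L : V →L[ℝ] V) :
    (one g).compContinuousLinearMap L = one (g.comp L) := by
  ext v
  rfl

lemma one_sub (g h : V →L[ℝ] ℝ) : one (g - h) = one g - one h := by
  rw [← oneL_apply, map_sub]; rfl

lemma one_add (g h : V →L[ℝ] ℝ) : one (g + h) = one g + one h := by
  rw [← oneL_apply, map_add]; rfl

lemma one_zero : one (0 : V →L[ℝ] ℝ) = 0 := by
  rw [← oneL_apply, map_zero]

lemma contDiff_one {g : V → V →L[ℝ] ℝ} (h : ContDiff ℝ ∞ g) : ContDiff ℝ ∞ fun q => one (g q) :=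
  oneL.contDiff.comp h

lemma contDiffAt_one {g : V → V →L[ℝ] ℝ} {x : V} (h : ContDiffAt ℝ ∞ g x) :
    ContDiffAt ℝ ∞ (fun q => one (g q)) x :=
  oneL.contDiff.contDiffAt.comp x h

lemma extDeriv_one {g : V → V →L[ℝ] ℝ} {x : V} {g' : V →L[ℝ] V →L[ℝ] ℝ} (h : HasFDerivAt g g' x)
    (u v : V) : extDeriv (fun q => one (g q)) x ![u, v] = g' u v - g' v u := by
  have h1 : HasFDerivAt (fun q => one (g q)) (oneL.comp g') x := oneL.hasFDerivAt.comp x h
  rw [extDeriv, h1.fderiv, ContinuousAlternatingMap.alternatizeUncurryFin_apply]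
  rw [Fin.sum_univ_two]
  simp [oneL_apply, one_apply, Fin.removeNth]
  ring

lemma alt2_ext {a b : Alt 2} (h : ∀ u v, a ![u, v] = b ![u, v]) : a = b := by
  ext v
  have : v = ![v 0, v 1] := by
    funext i; fin_cases i <;> rfl
  rw [this]
  exact h _ _

/-- the exterior derivative of `lam` -/
lemma extDeriv_lam {w : V} (hw : w ≠ 0) (u v : V) :
    extDeriv (fun q => one (lam q)) w ![u, v] =
      2 * deriv ff (rr w) * (RR w u * BB w v - RR w v * BB w u) + 2 * ff (rr w) * BB u v := by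
  rw [extDeriv_one (hasFDerivAt_lam hw)]
  simp only [_root_.add_apply, _root_.smul_apply,
    ContinuousLinearMap.smulRight_apply, smul_eq_mul]
  rw [BB_symm u v]
  ring

end Pool.Agent.TH50.SDG6
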