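import Pool.Agent.TH50.SDG6.C

/-!
# SD-G6, part D: the sign of the fourth power
-/

set_option autoImplicit false

open scoped ContDiff Topology
open Set

noncomputable section

namespace Pool.Agent.TH50.SDG6
open Pool.Agent.TH179.SD

lemma det_pos_of_injective (L : V →L[ℂ] V) (h : Function.Injective L) :
    0 < (L.restrictScalars ℝ).det := by
  have h1 : (L.restrictScalars ℝ).det = Algebra.norm ℝ (LinearMap.det (L : V →ₗ[ℂ] V)) := by
    rw [← LinearMap.det_restrictScalars]
    rfl
  rw [h1, Algebra.norm_complex_eq]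
  have h2 : LinearMap.det (L : V →ₗ[ℂ] V) ≠ 0 := by
    have e := LinearEquiv.isUnit_det' (LinearEquiv.ofInjectiveEndo (L : V →ₗ[ℂ] V) h)
    have : ((LinearEquiv.ofInjectiveEndo (L : V →ₗ[ℂ] V) h : V ≃ₗ[ℂ] V) : V →ₗ[ℂ] V) =
        (L : V →ₗ[ℂ] V) := by
      ext x
      rfl
    rw [this] at e
    exact e.ne_zero
  exact Complex.normSq_pos.2 h2

/-- the Hermitian product on `V` -/
def hv (w u : V) : ℂ := ∑ i, (starRingEnd ℂ) (w i) * u i

lemma BB_hv (w u : V) : BB w u = (hv w u).im := by
  rw [BB_apply, hv, Complex.im_sum]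
  refine Finset.sum_congr rfl fun i _ => ?_
  simp
  ring

lemma RR_hv (w u : V) : RR w u = (hv w u).re := by
  rw [RR_apply, hv, Complex.re_sum]
  refine Finset.sum_congr rfl fun i _ => ?_
  simp

lemma hv_smul (a b : ℂ) (w u : V) : hv (a • w) (b • u) = (starRingEnd ℂ) a * b * hv w u := by
  simp only [hv, Finset.mul_sum, Pi.smul_apply, smul_eq_mul, map_mul]
  refine Finset.sum_congr rfl fun i _ => ?_
  ring

lemma hv_self (w : V) : hv w w = (rr w : ℂ) := by
  rw [rr_eq_sum_normSq, hv]
  push_cast
  refine Finset.sum_congr rfl fun i _ => ?_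
  rw [mul_comm, Complex.mul_conj]

/-- a unitary basis which starts with a given direction -/
lemma exists_unitary {w : V} (hw : w ≠ 0) :
    ∃ b : Fin 4 → V, (∀ i j, hv (b i) (b j) = if i = j then 1 else 0) ∧
      w = ((Real.sqrt (rr w) : ℝ) : ℂ) • b 0 := by
  have hr : 0 < rr w := rr_pos hw
  have hs : 0 < Real.sqrt (rr w) := Real.sqrt_pos.2 hr
  have hsc : ((Real.sqrt (rr w) : ℝ) : ℂ) ≠ 0 := by exact_mod_cast hs.ne'
  set e : V := ((Real.sqrt (rr w) : ℝ) : ℂ)⁻¹ • w with he
  have hee : hv e e = 1 := by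
    rw [he, hv_smul, hv_self]
    rw [map_inv₀, Complex.conj_ofReal]
    have : ((rr w : ℝ) : ℂ) = (Real.sqrt (rr w) : ℂ) * (Real.sqrt (rr w) : ℂ) := by
      rw [← Complex.ofReal_mul, Real.mul_self_sqrt hr.le]
    rw [this]
    field_simp
  let E := EuclideanSpace ℂ (Fin 4)
  have inner_eq : ∀ x y : E, inner ℂ x y = hv (fun i => x i) (fun i => y i) := by
    intro x y
    rw [PiLp.inner_apply, hv]
    refine Finset.sum_congr rfl fun i _ => ?_
    simp [mul_comm]
  let v0 : E := WithLp.toLp 2 e
  have hv0 : Orthonormal ℂ (({0} : Set (Fin 4)).domRestrict (fun _ => v0)) := by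
    rw [orthonormal_iff_ite]
    rintro ⟨i, hi⟩ ⟨j, hj⟩
    have hi' : i = 0 := hi
    have hj' : j = 0 := hj
    subst hi'
    subst hj'
    simp only [if_true]
    show inner ℂ v0 v0 = 1
    rw [inner_eq]
    exact hee
  obtain ⟨b, hb⟩ := hv0.exists_orthonormalBasis_extension_of_card_eq (by simp [E])
  refine ⟨fun i => (fun k => b i k), ?_, ?_⟩
  · intro i j
    rw [← inner_eq]
    exact (orthonormal_iff_ite.1 b.orthonormal) i j
  · have h0 : b 0 = v0 := hb 0 rfl
    have h1 : (fun k => b 0 k) = e := by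
      rw [h0]
    show w = _ • (fun k => b 0 k)
    rw [h1, he, smul_smul, mul_inv_cancel₀ hsc, one_smul]

/-- the matrix with columns `b` -/
def colMap (b : Fin 4 → V) : V →L[ℂ] V :=
  ∑ i, (ContinuousLinearMap.proj (R := ℂ) (φ := fun _ : Fin 4 => ℂ) i).smulRight (b i)

lemma colMap_apply (b : Fin 4 → V) (x : V) : colMap b x = ∑ i, x i • b i := by
  simp [colMap]

lemma colMap_single (b : Fin 4 → V) (i : Fin 4) (x : ℂ) : colMap b (Pi.single i x) = x • b i := by
  rw [colMap_apply, Finset.sum_eq_single i]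
  · simp
  · intro j _ hj
    simp [hj]
  · simp

lemma colMap_injective {b : Fin 4 → V} (hb : ∀ i j, hv (b i) (b j) = if i = j then 1 else 0) :
    Function.Injective (colMap b) := by
  rw [injective_iff_map_eq_zero]
  intro x hx
  funext i
  have h1 : hv (b i) (colMap b x) = x i := by
    rw [colMap_apply]
    have : hv (b i) (∑ j, x j • b j) = ∑ j, x j * hv (b i) (b j) := by
      simp only [hv, Finset.mul_sum, Finset.sum_apply, Pi.smul_apply, smul_eq_mul]
      rw [Finset.sum_comm]
      refine Finset.sum_congr rfl fun j _ => Finset.sum_congr rfl fun k _ => ?_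
      ring
    rw [this]
    simp [hb]
  rw [← h1, hx]
  simp [hv]

lemma pow4_lam (hP : PowProps) {w : V} (hw : w ≠ 0) :
    ∃ D : ℝ, 0 < D ∧ D * pow4 (extDeriv (fun q => one (lam q)) w) rb =
      384 * ((2 * deriv chi (rr w)) * (2 * ff (rr w)) ^ 3) := by
  obtain ⟨b, hb, hwb⟩ := exists_unitary hw
  set L : V →L[ℝ] V := (colMap b).restrictScalars ℝ with hL
  refine ⟨L.det, det_pos_of_injective _ (colMap_injective hb), ?_⟩
  have h1 := hP.comp (extDeriv (fun q => one (lam q)) w) (extDeriv (fun q => one (lam q)) w)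
    (extDeriv (fun q => one (lam q)) w) (extDeriv (fun q => one (lam q)) w) L
  rw [pow4, ← h1]
  have h2 := hP.diag ((extDeriv (fun q => one (lam q)) w).compContinuousLinearMap L)
    (fun k => if k = 0 then 2 * deriv chi (rr w) else 2 * ff (rr w)) ?_
  · rw [pow4] at h2
    rw [h2, Fin.prod_univ_four]
    simp
    ring
  · intro i j x y
    have e1 : L (Pi.single i x) = x • b i := colMap_single b i x
    have e2 : L (Pi.single j y) = y • b j := colMap_single b j y
    have e3 : ((extDeriv (fun q => one (lam q)) w).compContinuousLinearMap L)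
        ![Pi.single i x, Pi.single j y] =
        extDeriv (fun q => one (lam q)) w ![x • b i, y • b j] := by
      rw [ContinuousAlternatingMap.compContinuousLinearMap_apply]
      congr 1
      funext k
      fin_cases k
      · exact e1
      · exact e2
    rw [e3, extDeriv_lam hw, BB_hv, BB_hv, RR_hv, RR_hv, BB_hv]
    have e4 : ∀ (k : Fin 4) (z : ℂ), hv w (z • b k) =
        if k = 0 then ((Real.sqrt (rr w) : ℝ) : ℂ) * z else 0 := by
      intro k z
      conv_lhs => rw [hwb]
      rw [hv_smul, hb, Complex.conj_ofReal]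
      by_cases hk : k = 0
      · subst hk; simp
      · simp [hk, Ne.symm hk]
    rw [e4, e4, hv_smul, hb]
    have hs : Real.sqrt (rr w) * Real.sqrt (rr w) = rr w := Real.mul_self_sqrt (rr_nonneg w)
    have hd := deriv_ff (rr_ne_zero hw)
    by_cases hij : i = j
    · subst hij
      by_cases hi : i = 0
      · subst hi
        simp only [if_true, mul_one]
        rw [← hd]
        simp
        linear_combination (2 * deriv ff (rr w) * (x.re * y.im - x.im * y.re)) * hs
      · simp [hi]
    · have : ¬ (i = 0 ∧ j = 0) := fun h => hij (h.1.trans h.2.symm)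
      by_cases hi : i = 0
      · have hj : j ≠ 0 := fun h => this ⟨hi, h⟩
        simp [hij, hj]
      · simp [hij, hi]

end Pool.Agent.TH50.SDG6
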