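import Pool.Agent.TH50.SDG6.D

/-!
# SD-G6, part E: the one-forms in the charts
-/

set_option autoImplicit false

open scoped ContDiff Topology
open Set

noncomputable section

namespace Pool.Agent.TH50.SDG6
open Pool.Agent.TH179.SD

/-- the complex derivative of `bd j` -/
def Dbd (j : Fin 4) (v : V) : V →L[ℂ] V :=
  ContinuousLinearMap.pi fun i => if i = j then ContinuousLinearMap.proj (R := ℂ) (φ := fun _ : Fin 4 => ℂ) j else
    v j • ContinuousLinearMap.proj (R := ℂ) (φ := fun _ : Fin 4 => ℂ) i +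
      v i • ContinuousLinearMap.proj (R := ℂ) (φ := fun _ : Fin 4 => ℂ) j

lemma Dbd_apply (j : Fin 4) (v u : V) (i : Fin 4) :
    Dbd j v u i = if i = j then u j else v j * u i + v i * u j := by
  by_cases hi : i = j <;> simp [Dbd, hi]

lemma hasFDerivAt_bd (j : Fin 4) (v : V) :
    HasFDerivAt (bd j) ((Dbd j v).restrictScalars ℝ) v := by
  have h : HasFDerivAt (𝕜 := ℂ) (bd j) (Dbd j v) v := by
    rw [hasFDerivAt_pi']
    intro i
    have hp : ∀ k : Fin 4, HasFDerivAt (𝕜 := ℂ) (fun v : V => v k)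
        (ContinuousLinearMap.proj (R := ℂ) (φ := fun _ : Fin 4 => ℂ) k) v := fun k =>
      (ContinuousLinearMap.proj (R := ℂ) (φ := fun _ : Fin 4 => ℂ) k).hasFDerivAt
    by_cases hi : i = j
    · simp only [bd, hi, if_true]
      refine (hp j).congr_fderiv ?_
      ext u
      simp [Dbd]
    · simp only [bd, hi, if_false]
      refine ((hp j).mul (hp i)).congr_fderiv ?_
      ext u
      simp [Dbd, hi]
  exact h.restrictScalars ℝ

lemma Dbd_injective {j : Fin 4} {v : V} (hv : v j ≠ 0) : Function.Injective (Dbd j v) := by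
  rw [injective_iff_map_eq_zero]
  intro u hu
  have h0 : u j = 0 := by
    have := congrFun hu j
    rw [Dbd_apply] at this
    simpa using this
  funext i
  by_cases hi : i = j
  · rw [hi, h0]; rfl
  · have := congrFun hu i
    rw [Dbd_apply, if_neg hi, h0] at this
    simpa [hv] using this

/-- `1 + ∑_{i ≠ j} |v_i|²` -/
def sj (j : Fin 4) (v : V) : ℝ := 1 + ∑ i, if i = j then 0 else Complex.normSq (v i)

lemma sj_pos (j : Fin 4) (v : V) : 0 < sj j v := by
  have : 0 ≤ ∑ i, if i = j then 0 else Complex.normSq (v i) :=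
    Finset.sum_nonneg fun i _ => by split_ifs <;> simp [Complex.normSq_nonneg]
  unfold sj
  linarith

lemma contDiff_sj (j : Fin 4) : ContDiff ℝ ∞ (sj j) := by
  refine contDiff_const.add (ContDiff.sum fun i _ => ?_)
  by_cases hi : i = j
  · simp only [hi, if_true]
    exact contDiff_const
  · simp only [hi, if_false]
    have : (fun v : V => Complex.normSq (v i)) = fun v : V => (v i).re * (v i).re + (v i).im * (v i).im := by
      funext v
      rw [Complex.normSq_apply]
    rw [this]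
    exact ((contDiff_re i).mul (contDiff_re i)).add ((contDiff_im i).mul (contDiff_im i))

/-- `Im ∑_{i ≠ j} conj(v_i) u_i` -/
def BBj (j : Fin 4) : V →L[ℝ] V →L[ℝ] ℝ :=
  ∑ i, if i = j then 0 else ((cre i).smulRight (cim i) - (cim i).smulRight (cre i))

lemma BBj_apply (j : Fin 4) (w u : V) : BBj j w u =
    ∑ i, if i = j then 0 else ((w i).re * (u i).im - (w i).im * (u i).re) := by
  rw [BBj, _root_.sum_apply, _root_.sum_apply]
  refine Finset.sum_congr rfl fun i _ => ?_
  by_cases hi : i = j <;> simp [hi]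

/-- the smooth part of the angular form in the chart `j` -/
def th (j : Fin 4) (v : V) : V →L[ℝ] ℝ := (sj j v)⁻¹ • BBj j v

lemma contDiff_th (j : Fin 4) : ContDiff ℝ ∞ (th j) :=
  ((contDiff_sj j).inv fun v => (sj_pos j v).ne').smul (BBj j).contDiff

/-- `z ↦ (u ↦ Im (z u_j))` -/
def KK (j : Fin 4) : ℂ →L[ℝ] V →L[ℝ] ℝ :=
  Complex.reCLM.smulRight (cim j) + Complex.imCLM.smulRight (cre j)

lemma KK_apply (j : Fin 4) (z : ℂ) (u : V) : KK j z u = (z * u j).im := by
  simp [KK]

/-- `d arg v_j` -/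
def dargj (j : Fin 4) (v : V) : V →L[ℝ] ℝ := KK j (v j)⁻¹

lemma dargj_zero (v : V) : dargj 0 v = darg v := by
  ext u
  rw [dargj, KK_apply]
  simp [darg]

lemma hasFDerivAt_dargj {j : Fin 4} {v : V} (hv : v j ≠ 0) :
    HasFDerivAt (dargj j) ((KK j).comp
      ((-(v j ^ 2)⁻¹ • ContinuousLinearMap.proj (R := ℂ) (φ := fun _ : Fin 4 => ℂ) j :
        V →L[ℂ] ℂ).restrictScalars ℝ)) v := by
  have h1 : HasFDerivAt (𝕜 := ℂ) (fun v : V => v j)
      (ContinuousLinearMap.proj (R := ℂ) (φ := fun _ : Fin 4 => ℂ) j) v :=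
    (ContinuousLinearMap.proj (R := ℂ) (φ := fun _ : Fin 4 => ℂ) j).hasFDerivAt
  have h2 : HasFDerivAt (𝕜 := ℂ) (fun v : V => (v j)⁻¹)
      (-(v j ^ 2)⁻¹ • ContinuousLinearMap.proj (R := ℂ) (φ := fun _ : Fin 4 => ℂ) j) v :=
    (hasDerivAt_inv hv).comp_hasFDerivAt v h1
  exact (KK j).hasFDerivAt.comp v (h2.restrictScalars ℝ)

lemma contDiffAt_dargj {j : Fin 4} {v : V} (hv : v j ≠ 0) : ContDiffAt ℝ ∞ (dargj j) v :=
  (KK j).contDiff.contDiffAt.comp v ((contDiff_coord j).contDiffAt.inv hv)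

lemma extDeriv_dargj {j : Fin 4} {v : V} (hv : v j ≠ 0) :
    extDeriv (fun q => one (dargj j q)) v = 0 := by
  apply alt2_ext
  intro a b
  rw [extDeriv_one (hasFDerivAt_dargj hv)]
  simp only [ContinuousLinearMap.comp_apply, KK_apply]
  simp only [ContinuousLinearMap.coe_restrictScalars', _root_.smul_apply,
    ContinuousLinearMap.proj_apply, smul_eq_mul]
  show _ = (0 : ℝ)
  rw [sub_eq_zero]
  congr 1
  ring

/-- the global one-form in the chart `inl j` -/
def nn (j : Fin 4) (v : V) : V →L[ℝ] ℝ :=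
  chi (rr (bd j v)) • th j v + (chi (rr (bd j v)) - 1) • dargj j v

lemma contDiff_nn (j : Fin 4) : ContDiff ℝ ∞ (nn j) := by
  rw [contDiff_iff_contDiffAt]
  intro v
  have h1 : ContDiff ℝ ∞ fun v => chi (rr (bd j v)) :=
    contDiff_chi.comp (contDiff_rr.comp (contDiff_bd j))
  refine (h1.contDiffAt.smul (contDiff_th j).contDiffAt).add ?_
  by_cases hv : v j = 0
  · have h2 : rr (bd j v) = 0 := by
      rw [rr_bd, hv]
      simp
    have h3 : ∀ᶠ p in 𝓝 v, rr (bd j p) < 1 / 4 :=
      (contDiff_rr.comp (contDiff_bd j)).continuous.continuousAt.eventually_lt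
        continuousAt_const (by
          show rr (bd j v) < 1 / 4
          rw [h2]; norm_num)
    have h4 : (fun p => (chi (rr (bd j p)) - 1) • dargj j p) =ᶠ[𝓝 v] fun _ => 0 := by
      filter_upwards [h3] with p hp
      rw [chi_one hp.le]
      simp
    exact contDiffAt_const.congr_of_eventuallyEq h4
  · exact (h1.contDiffAt.sub contDiffAt_const).smul (contDiffAt_dargj hv)

open Classical in
/-- the one-form `l` as a covector field -/
def lw (c : Idx) (q : V) : V →L[ℝ] ℝ :=
  if q ∈ domW c then (lam (toW c q)).comp (fderiv ℝ (toW c) q) else 0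

lemma lw_of_mem {c : Idx} {q : V} (h : q ∈ domW c) :
    lw c q = (lam (toW c q)).comp (fderiv ℝ (toW c) q) := if_pos h

lemma lw_of_notMem {c : Idx} {q : V} (h : q ∉ domW c) : lw c q = 0 := if_neg h

lemma lw_eventually {c : Idx} {q : V} (h : q ∈ domW c) :
    lw c =ᶠ[𝓝 q] fun p => (lam (toW c p)).comp (fderiv ℝ (toW c) p) := by
  filter_upwards [(isOpen_domW c).mem_nhds h] with p hp
  exact lw_of_mem hp

lemma contDiffAt_lw {c : Idx} {q : V} (h : q ∈ domW c) : ContDiffAt ℝ ∞ (lw c) q := by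
  refine ContDiffAt.congr_of_eventuallyEq ?_ (lw_eventually h)
  have h1 : ContDiffAt ℝ ∞ (fun p => lam (toW c p)) q :=
    (contDiffAt_lam (toW_ne_zero c h)).comp q (contDiffAt_toW c h)
  have h2 : ContDiffAt ℝ ∞ (fderiv ℝ (toW c)) q := (contDiffAt_toW c h).fderiv_right (by simp)
  exact h1.clm_comp h2

lemma lw_far {c : Fin 3} {q : V} (h : q ∉ domW (Sum.inr c)) :
    lw (Sum.inr c) =ᶠ[𝓝 q] fun _ => 0 := by
  filter_upwards [far c h] with p hp
  by_cases hd : p ∈ domW (Sum.inr c)
  · rw [lw_of_mem hd, lam_zero (hp hd)]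
    simp
  · exact lw_of_notMem hd

lemma contDiff_lw_inr (c : Fin 3) : ContDiff ℝ ∞ (lw (Sum.inr c)) := by
  rw [contDiff_iff_contDiffAt]
  intro q
  by_cases h : q ∈ domW (Sum.inr c)
  · exact contDiffAt_lw h
  · exact contDiffAt_const.congr_of_eventuallyEq (lw_far h)

lemma hv_bd (j : Fin 4) (v u : V) : hv (bd j v) (Dbd j v u) =
    (starRingEnd ℂ) (v j) * u j * (sj j v : ℂ) +
      (Complex.normSq (v j) : ℂ) * ∑ i, if i = j then 0 else (starRingEnd ℂ) (v i) * u i := by
  have h1 : (starRingEnd ℂ) (v j) * u j = ∑ i, if i = j then (starRingEnd ℂ) (v j) * u j else 0 := by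
    simp
  have h2 : (starRingEnd ℂ) (v j) * u j * (sj j v : ℂ) = (∑ i, if i = j then (starRingEnd ℂ) (v j) * u j else 0) +
      ∑ i, (starRingEnd ℂ) (v j) * u j * (if i = j then 0 else (Complex.normSq (v i) : ℂ)) := by
    rw [← h1, ← Finset.mul_sum, sj]
    push_cast
    rw [mul_add, mul_one]
    congr 2
    refine Finset.sum_congr rfl fun i _ => ?_
    split_ifs <;> simp
  rw [h2, Finset.mul_sum, ← Finset.sum_add_distrib, ← Finset.sum_add_distrib, hv]
  refine Finset.sum_congr rfl fun i _ => ?_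
  rw [Dbd_apply]
  by_cases hi : i = j
  · subst hi
    simp [bd]
  · simp only [hi, if_false, bd, map_mul]
    rw [← Complex.mul_conj, ← Complex.mul_conj]
    ring

lemma lw_inl {j : Fin 4} {v : V} (h : v j ≠ 0) :
    lw (Sum.inl j) v = nn j v + dargj j v := by
  have hm : v ∈ domW (Sum.inl j) := h
  rw [lw_of_mem hm]
  have h0 : toW (Sum.inl j) = bd j := rfl
  rw [h0, (hasFDerivAt_bd j v).fderiv]
  ext u
  have hn : Complex.normSq (v j) ≠ 0 := by
    rw [Ne, Complex.normSq_eq_zero]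
    exact h
  have hsj := (sj_pos j v).ne'
  have e1 : ((lam (bd j v)).comp ((Dbd j v).restrictScalars ℝ)) u =
      ff (rr (bd j v)) * BB (bd j v) (Dbd j v u) := by
    simp [lam]
  have e2 : BB (bd j v) (Dbd j v u) = ((starRingEnd ℂ) (v j) * u j).im * sj j v +
      Complex.normSq (v j) * BBj j v u := by
    rw [BB_hv, hv_bd, Complex.add_im, Complex.im_mul_ofReal, Complex.im_ofReal_mul, BBj_apply,
      Complex.im_sum]
    congr 2
    refine Finset.sum_congr rfl fun i _ => ?_
    by_cases hi : i = j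
    · simp [hi]
    · simp [hi]
      ring
  have e3 : rr (bd j v) = Complex.normSq (v j) * sj j v := rr_bd j v
  have e4 : dargj j v u = ((starRingEnd ℂ) (v j) * u j).im / Complex.normSq (v j) := by
    rw [dargj, KK_apply, Complex.inv_def]
    rw [show (starRingEnd ℂ) (v j) * ((Complex.normSq (v j))⁻¹ : ℝ) * u j =
      ((starRingEnd ℂ) (v j) * u j) * ((Complex.normSq (v j))⁻¹ : ℝ) by ring]
    rw [Complex.im_mul_ofReal]
    rfl
  have e5 : th j v u = BBj j v u / sj j v := by
    simp [th]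
    field_simp
  rw [e1, e2]
  simp only [nn, _root_.add_apply, _root_.smul_apply, smul_eq_mul]
  rw [e4, e5, ff, e3]
  field_simp
  ring

end Pool.Agent.TH50.SDG6
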